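import Mathlib
import Pool.Agent.K4H26.MinimalGroups

/-!
# The product of a minimal abelian group and a compact group is c-minimal

Positive answer to Q1.  Let `H` be a closed subgroup of `A × K`.  As `K` is compact, the projection of
`A × K` to `A` is a closed map; so the image of `H` is a closed subgroup of `A`, and it is the quotient
of `H` by the compact normal subgroup `H ∩ K`.  A closed subgroup of a minimal abelian group is
minimal (elementary: a coarser topology on the subgroup extends to a coarser Hausdorff topology on
the group, the quotient topology of the product), and an extension of a compact group by a minimal
abelian group is minimal.  The theorem of Prodanov and Stoyanov is not needed.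
-/

set_option autoImplicit false

namespace Pool.Agent.Results.MP_35204b_gt.ProductCMinimal

open Pool.Agent.K4H26.MinimalGroups

universe u v

/-- **Positive answer to Q1.** `A` a minimal abelian (Hausdorff) topological group and `K` a compact
(Hausdorff) topological group: every closed subgroup of `A × K` is minimal. -/
theorem result (A : Type u) [CommGroup A] [TopologicalSpace A] [IsTopologicalGroup A] [T2Space A]
    (K : Type v) [Group K] [TopologicalSpace K] [IsTopologicalGroup K] [T2Space K] [CompactSpace K]
    (hA : IsMinimalGroup A) : IsCMinimalGroup (A × K) :=
  fun H hH => isMinimalGroup_of_isClosed hA H hH

end Pool.Agent.Results.MP_35204b_gt.ProductCMinimal
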