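import Mathlib
import Pool.Agent.K4H26.MinimalGroups

/-!
# The product of a totally minimal abelian group and a compact group is c-totally minimal

Positive answer to Q2.  Let `H` be a closed subgroup of `A × K`, `M` a closed normal subgroup of `H`,
`P` the (closed) image of `M` in `A`.  The kernel of `H ⧸ M → A ⧸ P` is compact, the image is a closed
subgroup of the minimal abelian group `A ⧸ P` and so minimal, and the map is open onto its image.
So `H ⧸ M` is minimal.
-/

set_option autoImplicit false

namespace Pool.Agent.Results.MP_35204b_gt.ProductCTotallyMinimal

open Pool.Agent.K4H26.MinimalGroups

universe u v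

/-- **Positive answer to Q2.** `A` a totally minimal abelian (Hausdorff) topological group and `K` a
compact (Hausdorff) topological group: every closed subgroup of `A × K` is totally minimal. -/
theorem result (A : Type u) [CommGroup A] [TopologicalSpace A] [IsTopologicalGroup A] [T2Space A]
    (K : Type v) [Group K] [TopologicalSpace K] [IsTopologicalGroup K] [T2Space K] [CompactSpace K]
    (hA : IsTotallyMinimalGroup A) : IsCTotallyMinimalGroup (A × K) :=
  fun H hH => isTotallyMinimalGroup_of_isClosed hA H hH

end Pool.Agent.Results.MP_35204b_gt.ProductCTotallyMinimal
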